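import Pool.Agent.J6H20.Jump.Main

/-!
MP_9b97c3_lc, Q1: an iterated group jump `(E^[G])^[H]` which is not Borel bi-reducible with a group
jump `E^[K]`.

Let `E` be the equality on a Polish space `X` with at least two points (for instance two points) and
let `G` and `H` be infinite countable groups (for instance the integers). Then all classes of `E^[K]`
are countable for every countable group `K`. It is shown by a Baire category argument that there is no
Borel reduction of `(E^[G])^[H]` to a relation with countable classes.
-/

set_option autoImplicit false

namespace Pool.Agent.Results.MP_9b97c3_lc.IteratedJump

open Pool.Agent.J6H20.Jump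

/-- **Iterated group jumps are not group jumps.** Let `G` and `H` be infinite countable groups, let
`X` be a Polish space with at least two points, and let `E` be the equality on `X`. Then for every
countable group `K`, the relation `(E^[G])^[H]` is not Borel reducible to `E^[K]`. In particular
(with `G = H = ℤ` and `X` the space with two points) it is not Borel bi-reducible with `E^[K]` for
any countable group `K`: the answer to Q1 is negative. -/
theorem result (G H X : Type) [Group G] [Countable G] [Infinite G] [Group H] [Countable H]
    [Infinite H] [TopologicalSpace X] [PolishSpace X] [Nontrivial X]
    (K : Type) [Group K] [Countable K] :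
    ¬ BorelReducible (GroupJump H (GroupJump G (Eq : X → X → Prop)))
      (GroupJump K (Eq : X → X → Prop)) := by
  rintro ⟨f, hf, hred⟩
  refine not_reducible (GroupJump K (Eq : X → X → Prop)) (fun w => ⟨1, fun h => by simp⟩)
    (fun w => ?_) f hf hred
  refine (Set.countable_range fun k : K => fun h : K => w (k⁻¹ * h)).mono ?_
  rintro w' ⟨k, hk⟩
  exact ⟨k, funext hk⟩

end Pool.Agent.Results.MP_9b97c3_lc.IteratedJump
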